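import Mathlib

namespace Pool.Agent.Results.MP_e9025c_co.Cyclic

/-- A binary word `u` of length `n` is covered by `w` (with `none` the wild card) at the
0-based position `i`: the window fits in `w` and agrees with `u` at every letter. -/
def Covers {n : ℕ} (w : List (Option Bool)) (u : Fin n → Bool) (i : ℕ) : Prop :=
  i + n ≤ w.length ∧ ∀ (j : Fin n) (b : Bool), w[i + j]? = some (some b) → u j = b

/-- Every binary word of length `n` is covered at exactly one position. -/
def Universal (n : ℕ) (w : List (Option Bool)) : Prop :=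
  ∀ u : Fin n → Bool, ∃! i : ℕ, Covers w u i

/-- `w` is the word of `n` wild cards, or has no wild card. -/
def IsTrivial (n : ℕ) (w : List (Option Bool)) : Prop :=
  w = List.replicate n none ∨ none ∉ w

/-- All windows of length `n` have the same number of wild cards. -/
def WellDefined (n : ℕ) (w : List (Option Bool)) : Prop :=
  ∃ d : ℕ, ∀ i : ℕ, i + n ≤ w.length →
    ((Finset.range n).filter (fun t => w[i + t]? = some none)).card = d

/-- The first `n - 1` and the last `n - 1` characters are identical strings. -/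
def Pseudocyclic (n : ℕ) (w : List (Option Bool)) : Prop :=
  ∀ t : ℕ, t < n - 1 → w[t]? = w[w.length - (n - 1) + t]?

/-- Pseudocyclic, and the two blocks do not overlap. -/
def Cyclic (n : ℕ) (w : List (Option Bool)) : Prop :=
  Pseudocyclic n w ∧ 2 * (n - 1) ≤ w.length

def Cov (f : ℕ → Option Bool) (i m : ℕ) (u : ℕ → Bool) : Prop :=
  ∀ t < m, ∀ b, f (i + t) = some b → u t = b

def UU (f : ℕ → Option Bool) (m N : ℕ) : Prop :=
  ∀ u : ℕ → Bool, ∃! i, i < N ∧ Cov f i (m + 1) u

def rext (m : ℕ) (v : ℕ → Bool) (a : Bool) : ℕ → Bool := fun t => if t = m then a else v t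
def lext (v : ℕ → Bool) (a : Bool) : ℕ → Bool := fun t => if t = 0 then a else v (t - 1)

lemma cov_r (f : ℕ → Option Bool) (j m : ℕ) (v : ℕ → Bool) (a : Bool) :
    Cov f j (m + 1) (rext m v a) ↔ Cov f j m v ∧ ∀ b, f (j + m) = some b → a = b := by
  constructor
  · intro h
    refine ⟨fun t ht b hb => ?_, fun b hb => ?_⟩
    · have := h t (by omega) b hb
      simpa [rext, ht.ne] using this
    · have := h m (by omega) b hb
      simpa [rext] using this
  · rintro ⟨h1, h2⟩ t ht b hb
    by_cases e : t = m
    · subst e; simpa [rext] using h2 b hb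
    · simpa [rext, e] using h1 t (by omega) b hb

lemma cov_l (f : ℕ → Option Bool) (j m : ℕ) (v : ℕ → Bool) (a : Bool) :
    Cov f j (m + 1) (lext v a) ↔ Cov f (j + 1) m v ∧ ∀ b, f j = some b → a = b := by
  constructor
  · intro h
    refine ⟨fun t ht b hb => ?_, fun b hb => ?_⟩
    · have := h (t + 1) (by omega) b (by rw [← hb]; congr 1; omega)
      simpa [lext] using this
    · have := h 0 (by omega) b hb
      simpa [lext] using this
  · rintro ⟨h1, h2⟩ t ht b hb
    rcases t with _ | t
    · simpa [lext] using h2 b hb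
    · simpa [lext] using h1 t (by omega) b (by rw [← hb]; congr 1; omega)

lemma ex_ok (x : Option Bool) : ∃ a : Bool, ∀ b, x = some b → a = b := by
  rcases x with _ | c
  · exact ⟨false, by simp⟩
  · exact ⟨c, by simp⟩

lemma both_ok (x : Option Bool) (a : Bool) (h1 : ∀ b, x = some b → a = b)
    (h2 : ∀ b, x = some b → (!a) = b) : x = none := by
  rcases x with _ | c
  · rfl
  · have e1 := h1 c rfl
    have e2 := h2 c rfl
    subst e1
    simp at e2

/-- right extension data -/
lemma rdata {f : ℕ → Option Bool} {m N : ℕ} (h : UU f m N) (v : ℕ → Bool) :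
    ∃ r : Bool → ℕ, (∀ a, r a < N ∧ Cov f (r a) m v ∧ ∀ b, f (r a + m) = some b → a = b) ∧
      ∀ a j, j < N → Cov f j m v → (∀ b, f (j + m) = some b → a = b) → j = r a := by
  choose r hr using fun a => h (rext m v a)
  refine ⟨r, fun a => ⟨(hr a).1.1, (cov_r _ _ _ _ _).1 (hr a).1.2⟩, fun a j hj h1 h2 => ?_⟩
  exact (hr a).2 j ⟨hj, (cov_r _ _ _ _ _).2 ⟨h1, h2⟩⟩

lemma ldata {f : ℕ → Option Bool} {m N : ℕ} (h : UU f m N) (v : ℕ → Bool) :
    ∃ l : Bool → ℕ, (∀ a, l a < N ∧ Cov f (l a + 1) m v ∧ ∀ b, f (l a) = some b → a = b) ∧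
      ∀ a j, j < N → Cov f (j + 1) m v → (∀ b, f j = some b → a = b) → j = l a := by
  choose l hl using fun a => h (lext v a)
  refine ⟨l, fun a => ⟨(hl a).1.1, (cov_l _ _ _ _ _).1 (hl a).1.2⟩, fun a j hj h1 h2 => ?_⟩
  exact (hl a).2 j ⟨hj, (cov_l _ _ _ _ _).2 ⟨h1, h2⟩⟩

lemma bool_two (a c : Bool) : c = a ∨ c = !a := by cases a <;> cases c <;> simp

lemma npos {f : ℕ → Option Bool} {m N : ℕ} (h : UU f m N) : 0 < N := by
  obtain ⟨i, hi, _⟩ := h (fun _ => false)
  omega

lemma first_last {f : ℕ → Option Bool} {m N : ℕ} (h : UU f m N)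
    (hp : ∀ j, j + 1 < N → (f j = none ↔ f (j + 1 + m) = none)) (v : ℕ → Bool) :
    Cov f 0 m v ↔ Cov f N m v := by
  have hN := npos h
  obtain ⟨r, hr1, hr2⟩ := rdata h v
  obtain ⟨l, hl1, hl2⟩ := ldata h v
  constructor
  · intro h0
    by_contra hn
    obtain ⟨a, ha⟩ := ex_ok (f (0 + m))
    have e0 : 0 = r a := hr2 a 0 hN h0 ha
    have hl : ∀ c, l c + 1 = r (!a) := by
      intro c
      have h1 : l c + 1 < N := by
        have := (hl1 c).1
        have : l c + 1 ≠ N := fun e => hn (e ▸ (hl1 c).2.1)
        omega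
      obtain ⟨a', ha'⟩ := ex_ok (f (l c + 1 + m))
      have := hr2 a' _ h1 (hl1 c).2.1 ha'
      rcases bool_two a a' with e | e
      · rw [e] at this; omega
      · rw [e] at this; exact this
    have e1 : l (!a) = l a := by have := hl a; have := hl (!a); omega
    have hd : f (l a) = none := both_ok _ a (hl1 a).2.2 (by rw [← e1]; exact (hl1 (!a)).2.2)
    have h1 : l a + 1 < N := by rw [hl a]; exact (hr1 _).1
    have hd2 := (hp _ h1).1 hd
    have := hr2 a _ h1 (hl1 a).2.1 (by simp [hd2])
    omega
  · intro h0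
    by_contra hn
    obtain ⟨a, ha⟩ := ex_ok (f (N - 1))
    have e0 : N - 1 = l a := hl2 a (N - 1) (by omega) (by rwa [Nat.sub_add_cancel hN]) ha
    have hr : ∀ c, r c = l (!a) + 1 := by
      intro c
      have h1 : r c ≠ 0 := fun e => hn (e ▸ (hr1 c).2.1)
      have h2 := (hr1 c).1
      obtain ⟨a', ha'⟩ := ex_ok (f (r c - 1))
      have := hl2 a' (r c - 1) (by omega)
        (by rw [Nat.sub_add_cancel (by omega)]; exact (hr1 c).2.1) ha'
      rcases bool_two a a' with e | e
      · rw [e] at this; omega
      · rw [e] at this; omega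
    have e1 : r (!a) = r a := by rw [hr a, hr (!a)]
    have hd : f (r a + m) = none :=
      both_ok _ a (hr1 a).2.2 (by rw [← e1]; exact (hr1 (!a)).2.2)
    have h1 : l (!a) + 1 < N := by rw [← hr a]; exact (hr1 _).1
    have hd2 := (hp _ h1).2 (by rw [← hr a]; exact hd)
    have := hl2 a (l (!a)) (by omega) (hl1 _).2.1 (by simp [hd2])
    omega

def own (f : ℕ → Option Bool) (j : ℕ) : ℕ → Bool := fun t => (f (j + t)).getD false

lemma cov_own (f : ℕ → Option Bool) (j m : ℕ) : Cov f j m (own f j) := by
  intro t _ b hb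
  simp [own, hb]

lemma eq_of_cov {f : ℕ → Option Bool} {m i j : ℕ}
    (h : ∀ v, Cov f i m v → Cov f j m v) (t : ℕ) (ht : t < m) (b : Bool)
    (hb : f (j + t) = some b) : f (i + t) = some b := by
  by_contra hn
  have h1 : Cov f i m (fun s => if s = t then !b else own f i s) := by
    intro s hs c hc
    by_cases e : s = t
    · subst e
      simp only [if_true]
      rw [hc] at hn
      cases b <;> cases c <;> simp at hn ⊢
    · simp only [e, if_false]
      exact cov_own f i m s hs c hc
  have := h _ h1 t ht b hb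
  simp at this

lemma pseudo_of {f : ℕ → Option Bool} {m N : ℕ} (h : UU f m N)
    (hp : ∀ j, j + 1 < N → (f j = none ↔ f (j + 1 + m) = none)) (t : ℕ) (ht : t < m) :
    f t = f (N + t) := by
  have h1 := fun b => eq_of_cov (fun v => (first_last h hp v).1) t ht b
  have h2 := fun b => eq_of_cov (fun v => (first_last h hp v).2) t ht b
  simp only [zero_add] at h1 h2
  rcases e : f t with _ | b
  · rcases e2 : f (N + t) with _ | c
    · rfl
    · have := h1 c e2
      rw [e] at this
      exact this
  · exact (h2 b e).symm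

lemma per_of {f : ℕ → Option Bool} {m N : ℕ} (h : UU f m N)
    (hp : ∀ t < m, f t = f (N + t)) (j : ℕ) (hj : j + 1 < N) :
    f j = none ↔ f (j + 1 + m) = none := by
  have hc : ∀ v, Cov f 0 m v ↔ Cov f N m v := by
    intro v
    constructor
    · intro h0 t ht b hb
      exact h0 t ht b (by rw [zero_add, hp t ht]; exact hb)
    · intro h0 t ht b hb
      exact h0 t ht b (by rw [← hp t ht, ← hb, zero_add])
  obtain ⟨r, hr1, hr2⟩ := rdata h (own f (j + 1))
  obtain ⟨l, hl1, hl2⟩ := ldata h (own f (j + 1))
  have hv := cov_own f (j + 1) m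
  constructor
  · intro hd
    have hl : ∀ a, j = l a := fun a => hl2 a j (by omega) hv (by simp [hd])
    have hall : ∀ i, i < N → Cov f (i + 1) m (own f (j + 1)) → i = j := by
      intro i hi hci
      obtain ⟨a, ha⟩ := ex_ok (f i)
      rw [hl2 a i hi hci ha, ← hl a]
    have hr : ∀ a, r a = j + 1 := by
      intro a
      have h2 := (hr1 a).1
      have h1 : r a ≠ 0 := by
        intro e
        have h3 := (hc _).1 (e ▸ (hr1 a).2.1)
        have := hall (N - 1) (by omega) (by rw [Nat.sub_add_cancel (by omega)]; exact h3)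
        omega
      have := hall (r a - 1) (by omega) (by rw [Nat.sub_add_cancel (by omega)]; exact (hr1 a).2.1)
      omega
    exact both_ok _ false (by rw [← hr false]; exact (hr1 _).2.2)
      (by rw [← hr (!false)]; exact (hr1 _).2.2)
  · intro hd
    have hr : ∀ a, j + 1 = r a := fun a => hr2 a _ hj hv (by simp [hd])
    have hall : ∀ i, i < N → Cov f i m (own f (j + 1)) → i = j + 1 := by
      intro i hi hci
      obtain ⟨a, ha⟩ := ex_ok (f (i + m))
      rw [hr2 a i hi hci ha, ← hr a]
    have hl : ∀ a, l a = j := by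
      intro a
      have h2 := (hl1 a).1
      have h1 : l a + 1 ≠ N := by
        intro e
        have h3 := (hc _).2 (e ▸ (hl1 a).2.1)
        have := hall 0 (by omega) h3
        omega
      have := hall (l a + 1) (by omega) (hl1 a).2.1
      omega
    exact both_ok _ false (by rw [← hl false]; exact (hl1 _).2.2)
      (by rw [← hl (!false)]; exact (hl1 _).2.2)

def dc (f : ℕ → Option Bool) (n i : ℕ) : ℕ :=
  ((Finset.range n).filter (fun t => f (i + t) = none)).card

lemma dc_step (f : ℕ → Option Bool) (n i : ℕ) :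
    dc f n i + (if f (i + n) = none then 1 else 0) =
      dc f n (i + 1) + (if f i = none then 1 else 0) := by
  unfold dc
  simp only [Finset.card_filter]
  have h1 := Finset.sum_range_succ (fun t => if f (i + t) = none then 1 else 0) n
  have h2 := Finset.sum_range_succ' (fun t => if f (i + t) = none then 1 else 0) n
  simp only [add_zero] at h2
  rw [← h1, h2]
  congr 1
  apply Finset.sum_congr rfl
  intro t _
  rw [show i + (t + 1) = i + 1 + t by omega]

lemma wd_iff (f : ℕ → Option Bool) (m N : ℕ) :
    (∃ d, ∀ i < N, dc f (m + 1) i = d) ↔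
      ∀ j, j + 1 < N → (f j = none ↔ f (j + 1 + m) = none) := by
  constructor
  · rintro ⟨d, hd⟩ j hj
    have := dc_step f (m + 1) j
    rw [hd j (by omega), hd (j + 1) hj, show j + (m + 1) = j + 1 + m by omega] at this
    by_cases e1 : f j = none <;> by_cases e2 : f (j + 1 + m) = none <;> simp_all
  · intro h
    refine ⟨dc f (m + 1) 0, fun i hi => ?_⟩
    induction i with
    | zero => rfl
    | succ i ih =>
      have := dc_step f (m + 1) i
      rw [show i + (m + 1) = i + 1 + m by omega, ih (by omega)] at this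
      have h2 := h i hi
      by_cases e1 : f i = none
      · simp only [e1, h2.1 e1, if_true] at this; omega
      · have e2 : ¬ f (i + 1 + m) = none := fun e => e1 (h2.2 e)
        simp only [e1, e2, if_false] at this; omega

lemma count_le {f : ℕ → Option Bool} {m N d : ℕ} (h : UU f m N)
    (hd : ∀ i < N, dc f (m + 1) i = d) : 2 ^ (m + 1) ≤ N * 2 ^ d := by
  classical
  let S : ℕ → Finset (Fin (m + 1) → Bool) := fun i =>
    Fintype.piFinset (fun t : Fin (m + 1) =>
      if f (i + t) = none then Finset.univ else {(f (i + t)).getD false})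
  have hS : ∀ i < N, (S i).card = 2 ^ d := by
    intro i hi
    rw [← hd i hi]
    simp only [S, Fintype.card_piFinset, dc]
    rw [Finset.card_filter, ← Finset.prod_pow_eq_pow_sum,
      Finset.prod_range (fun t => 2 ^ (if f (i + t) = none then 1 else 0))]
    apply Finset.prod_congr rfl
    intro t _
    split_ifs <;> simp
  have hsub : (Finset.univ : Finset (Fin (m + 1) → Bool)) ⊆ (Finset.range N).biUnion S := by
    intro u _
    obtain ⟨i, ⟨hi, hc⟩, _⟩ := h (fun t => if ht : t < m + 1 then u ⟨t, ht⟩ else false)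
    rw [Finset.mem_biUnion]
    refine ⟨i, Finset.mem_range.2 hi, ?_⟩
    simp only [S, Fintype.mem_piFinset]
    intro t
    rcases e : f (i + t) with _ | b
    · simp
    · have := hc t t.2 b e
      simp only [t.2, dif_pos] at this
      simpa using this
  have h1 := Finset.card_le_card hsub
  have h2 := Finset.card_biUnion_le (s := Finset.range N) (t := S)
  rw [Finset.sum_congr rfl (fun i hi => hS i (Finset.mem_range.1 hi))] at h2
  simp at h1 h2
  omega

lemma pow_gt (k : ℕ) (hk : 1 ≤ k) : k * k + 1 < 2 ^ k + k := by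
  have h3 : ∀ j, (j + 3) * (j + 3) + 1 < 2 ^ (j + 3) + (j + 3) := by
    intro j
    induction j with
    | zero => norm_num
    | succ j ih =>
      rw [show j + 1 + 3 = (j + 3) + 1 by omega, pow_succ]
      nlinarith
  rcases Nat.lt_or_ge k 3 with h | h
  · interval_cases k <;> norm_num
  · obtain ⟨j, rfl⟩ := Nat.exists_eq_add_of_le' h
    exact h3 j

lemma big {f : ℕ → Option Bool} {m N : ℕ} (h : UU f m N)
    (hp : ∀ t < m, f t = f (N + t)) (hN : N ≤ m + 1) : ∀ t < m + 1, f t = none := by
  classical
  obtain ⟨d, hd⟩ := (wd_iff f m N).2 (per_of h hp)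
  have hN0 := npos h
  have h1 := count_le h hd
  let S := (Finset.range (m + 1)).filter (fun t => ¬ f (0 + t) = none)
  have hS : d + S.card = m + 1 := by
    rw [← hd 0 hN0]
    have := Finset.card_filter_add_card_filter_not (s := Finset.range (m + 1))
      (fun t => f (0 + t) = none)
    simpa [dc, S] using this
  have h2 : 2 ^ S.card ≤ N := by
    rw [← hS, pow_add, mul_comm] at h1
    exact Nat.le_of_mul_le_mul_right h1 (by positivity)
  have hsub : (Finset.range N).erase 0 ⊆
      S.offDiag.image (fun p : ℕ × ℕ => (p.2 + N - p.1) % N) := by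
    intro e he
    rw [Finset.mem_erase, Finset.mem_range] at he
    have hc0 : Cov f 0 (m + 1) (fun t => (f t).getD ((f (e + t)).getD false)) := by
      intro t _ b hb
      rw [zero_add] at hb
      simp [hb]
    have hne : ¬ Cov f e (m + 1) (fun t => (f t).getD ((f (e + t)).getD false)) := by
      intro hc
      exact he.1 ((h _).unique ⟨he.2, hc⟩ ⟨hN0, hc0⟩)
    unfold Cov at hne
    push Not at hne
    obtain ⟨t, ht, b, hb, hne⟩ := hne
    obtain ⟨c, hc, hcb⟩ : ∃ c, f t = some c ∧ c ≠ b := by
      rcases e1 : f t with _ | c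
      · simp [e1, hb] at hne
      · exact ⟨c, rfl, by simpa [e1] using hne⟩
    have hmem : ∀ s < m + 1, ∀ x, f s = some x → s ∈ S := by
      intro s hs x hx
      simp [S, hx]; omega
    rw [Finset.mem_image]
    by_cases hlt : e + t < m + 1
    · refine ⟨(t, e + t), Finset.mem_offDiag.2 ⟨hmem t ht c hc, hmem _ hlt b hb, ?_⟩, ?_⟩
      · have := he.1
        simp only
        omega
      · simp only
        rw [show e + t + N - t = e + N by omega, Nat.add_mod_right, Nat.mod_eq_of_lt he.2]
    · have hb' : f (e + t - N) = some b := by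
        rw [hp _ (by omega), show N + (e + t - N) = e + t by omega, hb]
      refine ⟨(t, e + t - N),
        Finset.mem_offDiag.2 ⟨hmem t ht c hc, hmem _ (by omega) b hb', ?_⟩, ?_⟩
      · simp only
        intro e1
        rw [← e1, hc] at hb'
        exact hcb (Option.some.inj hb')
      · simp only
        rw [show e + t - N + N - t = e by omega, Nat.mod_eq_of_lt he.2]
  have h3 := (Finset.card_le_card hsub).trans Finset.card_image_le
  rw [Finset.card_erase_of_mem (Finset.mem_range.2 hN0), Finset.card_range,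
    Finset.offDiag_card] at h3
  have h4 : S.card = 0 := by
    by_contra hk
    have h5 := pow_gt S.card (by omega)
    have h6 : S.card ≤ S.card * S.card := Nat.le_mul_self _
    omega
  intro t ht
  by_contra hn
  have : t ∈ S := by simp [S, hn]; omega
  rw [Finset.card_eq_zero.1 h4] at this
  simp at this

theorem result (n : ℕ) (hn : 1 ≤ n) (w : List (Option Bool)) (hU : Universal n w)
    (hT : ¬ IsTrivial n w) :
    (WellDefined n w ↔ Pseudocyclic n w) ∧ (Pseudocyclic n w ↔ Cyclic n w) := by
  obtain ⟨m, rfl⟩ := Nat.exists_eq_add_of_le' hn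
  have hL : m + 1 ≤ w.length := by
    obtain ⟨i, hi, _⟩ := hU (fun _ => false)
    have := hi.1
    omega
  obtain ⟨N, hN⟩ : ∃ N, w.length = N + m := ⟨w.length - m, by omega⟩
  let f : ℕ → Option Bool := fun t => (w[t]?).getD none
  have hf1 : ∀ t b, f t = some b ↔ w[t]? = some (some b) := by
    intro t b
    simp only [f]
    rcases w[t]? with _ | x <;> simp
  have hf2 : ∀ t < w.length, w[t]? = some (f t) := by
    intro t ht
    simp [f, List.getElem?_eq_getElem ht]
  have hUU : UU f m N := by
    intro u
    have key : ∀ i, Covers w (fun j : Fin (m + 1) => u j) i ↔ i < N ∧ Cov f i (m + 1) u := by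
      intro i
      constructor
      · rintro ⟨h1, h2⟩
        exact ⟨by omega, fun t ht b hb => h2 ⟨t, ht⟩ b ((hf1 _ _).1 hb)⟩
      · rintro ⟨h1, h2⟩
        exact ⟨by omega, fun j b hb => h2 j j.2 b ((hf1 _ _).2 hb)⟩
    simpa only [key] using hU (fun j : Fin (m + 1) => u j)
  have hdc : ∀ i < N,
      ((Finset.range (m + 1)).filter (fun t => w[i + t]? = some none)).card = dc f (m + 1) i := by
    intro i hi
    unfold dc
    congr 1
    apply Finset.filter_congr
    intro t ht
    rw [Finset.mem_range] at ht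
    rw [hf2 _ (by omega)]
    simp
  have hW : WellDefined (m + 1) w ↔ ∃ d, ∀ i < N, dc f (m + 1) i = d := by
    constructor
    · rintro ⟨d, hd⟩
      exact ⟨d, fun i hi => by rw [← hdc i hi]; exact hd i (by omega)⟩
    · rintro ⟨d, hd⟩
      exact ⟨d, fun i hi => by rw [hdc i (by omega)]; exact hd i (by omega)⟩
  have hP : Pseudocyclic (m + 1) w ↔ ∀ t < m, f t = f (N + t) := by
    unfold Pseudocyclic
    simp only [Nat.add_sub_cancel]
    rw [show w.length - m = N by omega]
    apply forall_congr'
    intro t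
    apply imp_congr_right
    intro ht
    rw [hf2 _ (by omega), hf2 _ (by omega)]
    simp
  refine ⟨?_, ⟨fun hp => ⟨hp, ?_⟩, fun h => h.1⟩⟩
  · rw [hW, hP, wd_iff]
    exact ⟨fun h => pseudo_of hUU h, fun h => per_of hUU h⟩
  · by_contra hc
    have hb := big hUU (hP.1 hp) (by omega)
    have hN0 := npos hUU
    have hN1 : N = 1 := by
      by_contra h1
      have c0 : Cov f 0 (m + 1) (own f 1) := by
        intro t ht b h
        rw [zero_add, hb t ht] at h
        simp at h
      have := (hUU _).unique ⟨hN0, c0⟩ ⟨(by omega : 1 < N), cov_own f 1 (m + 1)⟩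
      omega
    apply hT
    left
    rw [List.eq_replicate_iff]
    refine ⟨by omega, fun x hx => ?_⟩
    obtain ⟨t, ht, rfl⟩ := List.getElem_of_mem hx
    have h1 := hf2 t ht
    rw [List.getElem?_eq_getElem ht, hb t (by omega)] at h1
    exact Option.some.inj h1

end Pool.Agent.Results.MP_e9025c_co.Cyclic
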